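import Pool.Agent.H5.SubGame

namespace Pool.Agent.Results.MP_bd62ae_co.Expandable

open Pool.Agent.H5.SubGame

/-- Ultimately bipartite: period 2 and from some point on the nim-values alternate 0, 1. -/
def UltBip (S : Finset ℕ) : Prop :=
  period (nim S) = 2 ∧ ∃ n0, ∀ k, nim S (n0 + 2 * k) = 0 ∧ nim S (n0 + 2 * k + 1) = 1

/-- The expansion set. -/
def ex (S : Finset ℕ) : Set ℕ := {s | 0 < s ∧ ∀ n, nim S (n + s) ≠ nim S n}

/-- The set of all s + m p with s in S. -/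
def star (S : Finset ℕ) (p : ℕ) : Set ℕ := {t | ∃ s ∈ S, ∃ m, t = s + m * p}

def T (n : ℕ) : ℕ :=
  [0, 0, 0, 1, 1, 1, 0, 0, 0, 1, 1, 1, 2, 2, 0, 3, 3, 1, 2, 2, 0, 3, 3, 1, 0, 2, 0, 1, 0, 1, 0, 1,
    0, 1, 0, 1, 0, 1, 0, 1, 0, 1, 0, 1, 0, 1, 0, 1].getD n 0

lemma tab : ∀ n < 48, nim {3, 11, 15} n = T n :=
  table _ T 48 (by decide +kernel)

lemma per : ∀ n, 26 ≤ n → nim {3, 11, 15} (n + 2) = nim {3, 11, 15} n := by
  apply periodic _ 15 2 26 (by decide)
  intro n h1 h2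
  rw [tab _ (by omega), tab _ (by omega)]
  interval_cases n <;> rfl

lemma alt (k : ℕ) : nim {3, 11, 15} (26 + 2 * k) = 0 ∧ nim {3, 11, 15} (26 + 2 * k + 1) = 1 := by
  have e : 26 + 2 * k + 1 = 27 + k * 2 := by ring
  rw [e, mul_comm 2 k, iter _ 2 26 per _ _ (by omega), iter _ 2 26 per _ _ (by omega),
    tab _ (by omega), tab _ (by omega)]
  exact ⟨rfl, rfl⟩

lemma nine : 9 ∈ ex {3, 11, 15} := by
  refine ⟨by norm_num, fun n => ?_⟩
  by_cases h : n < 26
  · rw [tab _ (by omega), tab _ (by omega)]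
    interval_cases n <;> decide
  · rcases Nat.even_or_odd' (n - 26) with ⟨k, hk | hk⟩
    · have e : n + 9 = 26 + 2 * (k + 4) + 1 := by omega
      have e2 : n = 26 + 2 * k := by omega
      rw [e, (alt _).2, e2, (alt _).1]
      decide
    · have e : n + 9 = 26 + 2 * (k + 5) := by omega
      have e2 : n = 26 + 2 * k + 1 := by omega
      rw [e, (alt _).1, e2, (alt _).2]
      decide

theorem result : ∃ S : Finset ℕ, S.Nonempty ∧ (∀ s ∈ S, 0 < s) ∧ UltBip S ∧
    ex S ≠ (S : Set ℕ) ∧ ex S ≠ star S 2 := by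
  refine ⟨{3, 11, 15}, by decide, by decide, ⟨?_, 26, alt⟩, ?_, ?_⟩
  · apply period_eq _ 2 26 (by norm_num) per
    intro q h1 h2
    refine ⟨26, le_rfl, ?_⟩
    rw [tab _ (by omega), tab _ (by omega)]
    interval_cases q
    decide
  · intro h
    have := nine
    rw [h] at this
    simp at this
  · intro h
    have h5 : 5 ∈ star {3, 11, 15} 2 := ⟨3, by decide, 1, rfl⟩
    rw [← h] at h5
    have := h5.2 1
    rw [tab _ (by omega), tab _ (by omega)] at this
    exact this rfl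

end Pool.Agent.Results.MP_bd62ae_co.Expandable
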